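import Mathlib

namespace Pool.Agent.Results.MP_29bdbb_an.MatrixShiftEntropies

set_option linter.unusedSectionVars false

open Filter Topology

/-! ### Definitions of the problem -/

/-- Nodes of the `d`-ary tree: finite words over `Fin d`; the children of `w` are `w ++ [i]`. -/
abbrev Node (d : ℕ) := List (Fin d)

/-- `Δ_n`: the nodes of length at most `n - 1`. -/
abbrev Ball (d n : ℕ) := {w : Node d // w.length < n}

/-- `n`-blocks over the alphabet `𝒜`. -/
abbrev NBlock (d : ℕ) (𝒜 : Type) (n : ℕ) := Ball d n → 𝒜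

/-- The `n`-block of the labelled tree `t` at the node `v`. -/
def blockAt {d : ℕ} {𝒜 : Type} (t : Node d → 𝒜) (v : Node d) (n : ℕ) : NBlock d 𝒜 n :=
  fun w => t (v ++ w.1)

/-- The tree-shift `X_F` of labelled trees in which no block of `F` occurs at any node. -/
def TreeShift {d : ℕ} {𝒜 : Type} (F : Set (Σ n : ℕ, NBlock d 𝒜 n)) : Set (Node d → 𝒜) :=
  {t | ∀ b ∈ F, ∀ v : Node d, blockAt t v b.1 ≠ b.2}

/-- The set `B_n(X)` of `n`-blocks occurring in elements of `X`. -/
def Blocks {d : ℕ} {𝒜 : Type} (X : Set (Node d → 𝒜)) (n : ℕ) : Set (NBlock d 𝒜 n) :=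
  {b | ∃ t ∈ X, ∃ v : Node d, blockAt t v n = b}

/-- The entropy `h(X) = lim (ln ln |B_n(X)|) / n` exists and equals `h`. -/
def HasEntropy {d : ℕ} {𝒜 : Type} (X : Set (Node d → 𝒜)) (h : ℝ) : Prop :=
  Tendsto (fun n : ℕ => Real.log (Real.log ((Blocks X n).ncard : ℝ)) / (n : ℝ)) atTop (𝓝 h)

/-- The matrix shift `X_A`. -/
def MatrixShift {ι : Type} (A : Matrix ι ι ℕ) : Set (ℤ → ι) :=
  {x | ∀ n : ℤ, A (x n) (x (n + 1)) = 1}

/-- The spectral radius of a square matrix with natural entries. -/
noncomputable def rho {ι : Type} [Fintype ι] [DecidableEq ι] (A : Matrix ι ι ℕ) : ℝ :=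
  (spectralRadius ℂ (A.map (fun k : ℕ => (k : ℂ)))).toReal

/-! ### The tree-shift -/

section construction

variable {ι : Type} [Fintype ι] [DecidableEq ι] (A : Matrix ι ι ℕ)

/-- number of children -/
noncomputable def dd (ι : Type) [Fintype ι] : ℕ := Fintype.card (Option (Option ι))

noncomputable def ee (ι : Type) [Fintype ι] : Option (Option ι) ≃ Fin (dd ι) :=
  Fintype.equivFin _

/-- state attached to a child index -/
noncomputable def st (c : Fin (dd ι)) : Option ι := ((ee ι).symm c).join

/-- state of a child from the state of the parent -/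
noncomputable def nxt (s : Option ι) (c : Fin (dd ι)) : Option ι :=
  match s, st c with
  | some i, some j => if A i j = 1 then some j else none
  | _, _ => none

lemma nxt_none (c : Fin (dd ι)) : nxt A none c = none := rfl

lemma sum_nxt (hA : ∀ i j, A i j = 0 ∨ A i j = 1) (i : ι) (f : Option ι → ℕ) (hf : f none = 0) :
    ∑ c : Fin (dd ι), f (nxt A (some i) c) = ∑ j, A i j * f (some j) := by
  rw [← Equiv.sum_comp (ee ι)]
  rw [Fintype.sum_option, Fintype.sum_option]
  have h1 : nxt A (some i) (ee ι none) = none := by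
    simp [nxt, st]
  have h2 : nxt A (some i) (ee ι (some none)) = none := by
    simp [nxt, st]
  rw [h1, h2, hf, zero_add, zero_add]
  refine Finset.sum_congr rfl fun j _ => ?_
  have h3 : nxt A (some i) (ee ι (some (some j))) = if A i j = 1 then some j else none := by
    simp [nxt, st]
  rw [h3]
  rcases hA i j with h | h
  · simp [h, hf]
  · simp [h]

/-- state at the node `w` when the root has state `s` -/
noncomputable def S (s : Option ι) (w : Node (dd ι)) : Option ι := w.foldl (nxt A) s

lemma S_nil (s : Option ι) : S A s [] = s := rfl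

lemma S_cons (s : Option ι) (c : Fin (dd ι)) (w : Node (dd ι)) :
    S A s (c :: w) = S A (nxt A s c) w := rfl

lemma S_append (s : Option ι) (w v : Node (dd ι)) : S A s (w ++ v) = S A (S A s w) v := by
  simp [S, List.foldl_append]

lemma S_snoc (s : Option ι) (w : Node (dd ι)) (c : Fin (dd ι)) :
    S A s (w ++ [c]) = nxt A (S A s w) c := by
  rw [S_append]; rfl

/-- number of live nodes at depth `k` -/
noncomputable def M (k : ℕ) (s : Option ι) : ℕ :=
  Nat.card {w : Node (dd ι) // w.length = k ∧ (S A s w).isSome}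

instance finLen (d k : ℕ) : Finite {w : Node d // w.length = k} :=
  (List.finite_length_eq (Fin d) k).to_subtype

instance finBall (d n : ℕ) : Finite (Ball d n) :=
  (List.finite_length_lt (Fin d) n).to_subtype

instance finM (k : ℕ) (s : Option ι) :
    Finite {w : Node (dd ι) // w.length = k ∧ (S A s w).isSome} :=
  ((List.finite_length_eq (Fin (dd ι)) k).subset (fun _ h => h.1)).to_subtype

lemma M_zero (s : Option ι) : M A 0 s = if s.isSome then 1 else 0 := by
  unfold M
  by_cases h : s.isSome
  · rw [if_pos h]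
    have : Unique {w : Node (dd ι) // w.length = 0 ∧ (S A s w).isSome} :=
      { default := ⟨[], rfl, h⟩
        uniq := fun w => Subtype.ext (List.length_eq_zero_iff.1 w.2.1) }
    exact Nat.card_unique
  · rw [if_neg h]
    have : IsEmpty {w : Node (dd ι) // w.length = 0 ∧ (S A s w).isSome} := by
      refine ⟨fun w => h ?_⟩
      have h1 := w.2.2
      rw [List.length_eq_zero_iff.1 w.2.1] at h1
      exact h1
    exact Nat.card_of_isEmpty

def splitEquiv (k : ℕ) (s : Option ι) :
    {w : Node (dd ι) // w.length = k + 1 ∧ (S A s w).isSome} ≃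
      Σ c : Fin (dd ι), {w : Node (dd ι) // w.length = k ∧ (S A (nxt A s c) w).isSome} where
  toFun w := match w with
    | ⟨c :: w, h⟩ => ⟨c, w, by simpa using h.1, h.2⟩
  invFun p := ⟨p.1 :: p.2.1, by simp [p.2.2.1], p.2.2.2⟩
  left_inv := by
    rintro ⟨w, h⟩
    cases w with
    | nil => simp at h
    | cons c w => rfl
  right_inv := by
    rintro ⟨c, w, h⟩
    rfl

lemma M_succ (k : ℕ) (s : Option ι) : M A (k + 1) s = ∑ c, M A k (nxt A s c) := by
  unfold M
  rw [Nat.card_congr (splitEquiv A k s), Nat.card_sigma]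

lemma M_none (k : ℕ) : M A k none = 0 := by
  induction k with
  | zero => simp [M_zero]
  | succ k ih =>
    rw [M_succ]
    simp [nxt_none, ih]

lemma M_some (hA : ∀ i j, A i j = 0 ∨ A i j = 1) (k : ℕ) :
    ∀ i, M A k (some i) = ∑ j, (A ^ k) i j := by
  induction k with
  | zero =>
    intro i
    simp [M_zero, Matrix.one_apply]
  | succ k ih =>
    intro i
    rw [M_succ, sum_nxt A hA i (M A k) (M_none A k)]
    rw [pow_succ']
    simp_rw [Matrix.mul_apply, ih]
    rw [Finset.sum_comm]
    refine Finset.sum_congr rfl fun j _ => ?_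
    rw [Finset.mul_sum]

/-- number of live nodes in `Δ_n` -/
noncomputable def L (n : ℕ) (s : Option ι) : ℕ :=
  Nat.card {w : Ball (dd ι) n // (S A s w.1).isSome}

lemma L_eq (n : ℕ) (s : Option ι) : L A n s = ∑ k ∈ Finset.range n, M A k s := by
  have e : {w : Ball (dd ι) n // (S A s w.1).isSome} ≃
      Σ k : Fin n, {w : Node (dd ι) // w.length = k ∧ (S A s w).isSome} :=
    { toFun := fun w => ⟨⟨w.1.1.length, w.1.2⟩, w.1.1, rfl, w.2⟩
      invFun := fun p => ⟨⟨p.2.1, by rw [p.2.2.1]; exact p.1.2⟩, p.2.2.2⟩
      left_inv := fun w => rfl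
      right_inv := by
        rintro ⟨⟨k, hk⟩, w, h1, h2⟩
        change w.length = k at h1
        subst h1
        rfl }
  unfold L
  rw [Nat.card_congr e, Nat.card_sigma, Finset.sum_range]
  rfl

/-- alphabet -/
abbrev Alph (ι : Type) := Option (ι × Bool)

/-- state of a letter -/
def pr (a : Alph ι) : Option ι := a.map Prod.fst

/-- forbidden 2-blocks -/
def Bad2 : Set (NBlock (dd ι) (Alph ι) 2) :=
  {b | ¬ ∀ c : Fin (dd ι), pr (b ⟨[c], by simp⟩) = nxt A (pr (b ⟨[], by simp⟩)) c}

def FF : Set (Σ n : ℕ, NBlock (dd ι) (Alph ι) n) := (fun b => ⟨2, b⟩) '' Bad2 A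

lemma FF_finite : (FF A).Finite := by
  have : Finite (NBlock (dd ι) (Alph ι) 2) := by
    unfold NBlock
    infer_instance
  exact (Set.toFinite (Bad2 A)).image _

lemma mem_treeShift (t : Node (dd ι) → Alph ι) :
    t ∈ TreeShift (FF A) ↔ ∀ v c, pr (t (v ++ [c])) = nxt A (pr (t v)) c := by
  constructor
  · intro h v
    by_contra hc
    have hb : (⟨2, blockAt t v 2⟩ : Σ n : ℕ, NBlock (dd ι) (Alph ι) n) ∈ FF A := by
      refine ⟨blockAt t v 2, ?_, rfl⟩
      intro h'
      apply hc
      intro c
      have := h' c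
      simpa [blockAt] using this
    exact h _ hb v rfl
  · rintro h b ⟨b', hb', rfl⟩ v hv
    apply hb'
    intro c
    have h1 : blockAt t v 2 = b' := hv
    rw [← h1]
    simpa [blockAt] using h v c

lemma pr_S (t : Node (dd ι) → Alph ι) (ht : t ∈ TreeShift (FF A)) (v w : Node (dd ι)) :
    pr (t (v ++ w)) = S A (pr (t v)) w := by
  rw [mem_treeShift] at ht
  induction w using List.reverseRecOn with
  | nil => simp [S_nil]
  | append_singleton w c ih =>
    rw [← List.append_assoc, ht, ih, S_snoc]

/-- labelled tree with given states and all bits `false` -/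
noncomputable def ext (s : Option ι) (w : Node (dd ι)) : Alph ι := (S A s w).map fun j => (j, false)

lemma pr_ext (s : Option ι) (w : Node (dd ι)) : pr (ext A s w) = S A s w := by
  unfold pr ext
  cases S A s w <;> rfl

lemma ext_mem (s : Option ι) : ext A s ∈ TreeShift (FF A) := by
  rw [mem_treeShift]
  intro v c
  rw [pr_ext, pr_ext, S_snoc]

/-- blocks whose states are those generated by the root state `s` -/
def G (n : ℕ) (s : Option ι) : Set (NBlock (dd ι) (Alph ι) n) := {b | ∀ w, pr (b w) = S A s w.1}

lemma blocks_eq (n : ℕ) : Blocks (TreeShift (FF A)) n = ⋃ s, G A n s := by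
  ext b
  rw [Set.mem_iUnion]
  constructor
  · rintro ⟨t, ht, v, rfl⟩
    refine ⟨pr (t v), fun w => ?_⟩
    exact pr_S A t ht v w.1
  · rintro ⟨s, hs⟩
    classical
    refine ⟨fun w => if h : w.length < n then b ⟨w, h⟩ else ext A s w, ?_, [], ?_⟩
    · have key : ∀ w : Node (dd ι),
          pr (if h : w.length < n then b ⟨w, h⟩ else ext A s w) = S A s w := by
        intro w
        split_ifs with h
        · exact hs ⟨w, h⟩
        · exact pr_ext A s w
      rw [mem_treeShift]
      intro v c
      rw [key, key, S_snoc]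
    · funext w
      simp [blockAt, w.2]

lemma card_G (n : ℕ) (s : Option ι) : (G A n s).ncard = 2 ^ L A n s := by
  classical
  have e : (G A n s) ≃ ({w : Ball (dd ι) n // (S A s w.1).isSome} → Bool) :=
    { toFun := fun b w => (b.1 w.1).elim false Prod.snd
      invFun := fun f => ⟨fun w => if h : (S A s w.1).isSome
          then some ((S A s w.1).get h, f ⟨w, h⟩) else none, by
        intro w
        simp only
        split_ifs with h
        · simp [pr]
        · simp only [Bool.not_eq_true, Option.isSome_eq_false_iff, Option.isNone_iff_eq_none] at h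
          rw [h]; rfl⟩
      left_inv := by
        rintro ⟨b, hb⟩
        apply Subtype.ext
        funext w
        have h1 := hb w
        simp only
        split_ifs with h
        · obtain ⟨p, hp⟩ : ∃ p, b w = some p := by
            cases hbw : b w with
            | none =>
              rw [hbw] at h1
              rw [← h1] at h
              simp [pr] at h
            | some p => exact ⟨p, rfl⟩
          rw [hp] at h1 ⊢
          simp only [pr, Option.map_some] at h1
          simp [← h1]
        · simp only [Bool.not_eq_true, Option.isSome_eq_false_iff, Option.isNone_iff_eq_none] at h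
          rw [h] at h1
          unfold pr at h1
          rw [Option.map_eq_none_iff] at h1
          exact h1.symm
      right_inv := by
        intro f
        funext w
        simp [w.2] }
  have h1 : (G A n s).ncard = Nat.card (G A n s) := rfl
  rw [h1, Nat.card_congr e, Nat.card_fun]
  simp [L]

end construction

/-! ### Asymptotics -/

section asymptotics

lemma tendsto_pred (u : ℕ → ℝ) (lam : ℝ)
    (h : Tendsto (fun n : ℕ => Real.log (u n) / n) atTop (𝓝 lam)) :
    Tendsto (fun n : ℕ => Real.log (u (n - 1)) / n) atTop (𝓝 lam) := by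
  rw [← tendsto_add_atTop_iff_nat 1]
  have h1 := h.mul (tendsto_natCast_div_add_atTop (𝕜 := ℝ) 1)
  rw [mul_one] at h1
  refine h1.congr' ?_
  filter_upwards [eventually_gt_atTop 0] with n hn
  have : (n : ℝ) ≠ 0 := by positivity
  have h2 : ((n : ℝ) + 1) ≠ 0 := by positivity
  simp only [Nat.add_sub_cancel]
  push_cast
  field_simp

lemma tendsto_const_div (c : ℝ) : Tendsto (fun n : ℕ => c / (n : ℝ)) atTop (𝓝 0) :=
  tendsto_const_nhds.div_atTop tendsto_natCast_atTop_atTop

lemma log_sum_div (u : ℕ → ℝ) (hu : ∀ k, 1 ≤ u k) (lam : ℝ) (hlam : 0 ≤ lam)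
    (h : Tendsto (fun n : ℕ => Real.log (u n) / n) atTop (𝓝 lam)) :
    Tendsto (fun n : ℕ => Real.log (∑ k ∈ Finset.range n, u k) / n) atTop (𝓝 lam) := by
  have hsum : ∀ n : ℕ, 0 < n → u (n - 1) ≤ ∑ k ∈ Finset.range n, u k := by
    intro n hn
    exact Finset.single_le_sum (f := u) (fun k _ => (zero_le_one.trans (hu k)))
      (Finset.mem_range.2 (by omega))
  rw [tendsto_order]
  constructor
  · intro a ha
    filter_upwards [(tendsto_order.1 (tendsto_pred u lam h)).1 a ha, eventually_gt_atTop 0]
      with n hn hn0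
    refine hn.trans_le ?_
    have : (0 : ℝ) < n := by positivity
    have h1 : 0 < u (n - 1) := zero_lt_one.trans_le (hu _)
    gcongr
    exact hsum n hn0
  · intro b hb
    set δ : ℝ := (b - lam) / 4 with hδ
    have hδ0 : 0 < δ := by rw [hδ]; linarith
    obtain ⟨K, hK⟩ := eventually_atTop.1 ((tendsto_order.1 h).2 (lam + δ) (by linarith))
    set C : ℝ := ∑ k ∈ Finset.range (K + 1), u k with hC
    have hC0 : 0 ≤ C := Finset.sum_nonneg fun k _ => (zero_le_one.trans (hu k))
    have hmain : ∀ n : ℕ, ∑ k ∈ Finset.range n, u k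
        ≤ (C + 1 / δ) * Real.exp ((lam + 2 * δ) * n) := by
      intro n
      have h1 : ∀ k ∈ Finset.range n, u k ≤
          (if k < K + 1 then u k else 0) + Real.exp ((lam + δ) * n) := by
        intro k hk
        rw [Finset.mem_range] at hk
        split_ifs with hkK
        · linarith [Real.exp_pos ((lam + δ) * n)]
        · rw [zero_add]
          push Not at hkK
          have h2 := hK k (by omega)
          have hk1 : (0 : ℝ) < k := by
            have : 0 < k := by omega
            exact_mod_cast this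
          rw [div_lt_iff₀ hk1] at h2
          have h3 : u k ≤ Real.exp ((lam + δ) * k) := by
            rw [← Real.exp_log (zero_lt_one.trans_le (hu k))]
            exact Real.exp_le_exp.2 h2.le
          refine h3.trans (Real.exp_le_exp.2 ?_)
          have : (k : ℝ) ≤ n := by exact_mod_cast hk.le
          have : 0 ≤ lam + δ := by linarith
          gcongr
      have h2 : ∑ k ∈ Finset.range n, u k ≤ C + n * Real.exp ((lam + δ) * n) := by
        refine (Finset.sum_le_sum h1).trans ?_
        rw [Finset.sum_add_distrib, Finset.sum_const, Finset.card_range, nsmul_eq_mul]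
        gcongr
        rw [← Finset.sum_filter]
        refine Finset.sum_le_sum_of_subset_of_nonneg ?_ (fun k _ _ => zero_le_one.trans (hu k))
        intro k hk
        rw [Finset.mem_filter] at hk
        exact Finset.mem_range.2 hk.2
      have h3 : (n : ℝ) ≤ 1 / δ * Real.exp (δ * n) := by
        have := Real.add_one_le_exp (δ * n)
        rw [div_mul_eq_mul_div, one_mul, le_div_iff₀ hδ0]
        linarith
      have h4 : Real.exp ((lam + 2 * δ) * n) = Real.exp (δ * n) * Real.exp ((lam + δ) * n) := by
        rw [← Real.exp_add]; ring_nf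
      have h5 : 1 ≤ Real.exp ((lam + 2 * δ) * n) := by
        apply Real.one_le_exp
        positivity
      have h6 : 0 < Real.exp ((lam + δ) * n) := Real.exp_pos _
      calc ∑ k ∈ Finset.range n, u k ≤ C + n * Real.exp ((lam + δ) * n) := h2
        _ ≤ C * Real.exp ((lam + 2 * δ) * n)
            + (1 / δ * Real.exp (δ * n)) * Real.exp ((lam + δ) * n) := by
              gcongr
              nlinarith
        _ = (C + 1 / δ) * Real.exp ((lam + 2 * δ) * n) := by rw [h4]; ring
    have hCd : 0 < C + 1 / δ := by positivity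
    have hlim := tendsto_const_div (Real.log (C + 1 / δ))
    filter_upwards [(tendsto_order.1 hlim).2 δ hδ0, eventually_gt_atTop 0] with n hn hn0
    have hn1 : (0 : ℝ) < n := by positivity
    have hpos : 0 < ∑ k ∈ Finset.range n, u k :=
      (zero_lt_one.trans_le (hu _)).trans_le (hsum n hn0)
    have h7 : Real.log (∑ k ∈ Finset.range n, u k)
        ≤ Real.log (C + 1 / δ) + (lam + 2 * δ) * n := by
      refine (Real.log_le_log hpos (hmain n)).trans ?_
      rw [Real.log_mul hCd.ne' (Real.exp_pos _).ne', Real.log_exp]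
    calc Real.log (∑ k ∈ Finset.range n, u k) / n
        ≤ (Real.log (C + 1 / δ) + (lam + 2 * δ) * n) / n := by gcongr
      _ = Real.log (C + 1 / δ) / n + (lam + 2 * δ) := by field_simp
      _ < δ + (lam + 2 * δ) := by gcongr
      _ < b := by rw [hδ]; linarith

/-- squeeze for double logarithms -/
lemma loglog (u : ℕ → ℝ) (hu : ∀ k, 1 ≤ u k) (lam : ℝ) (hlam : 0 ≤ lam)
    (h : Tendsto (fun n : ℕ => Real.log (u n) / n) atTop (𝓝 lam)) (c : ℕ → ℝ) (q : ℝ) (hq : 1 ≤ q)
    (h1 : ∀ n, 0 < n → u (n - 1) * Real.log 2 ≤ Real.log (c n))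
    (h2 : ∀ n, 0 < n → Real.log (c n) ≤ Real.log q + (∑ k ∈ Finset.range n, u k) * Real.log 2) :
    Tendsto (fun n : ℕ => Real.log (Real.log (c n)) / n) atTop (𝓝 lam) := by
  have hl2 : 0 < Real.log 2 := Real.log_pos (by norm_num)
  have hq0 : 0 ≤ Real.log q := Real.log_nonneg hq
  have hlow : Tendsto (fun n : ℕ => Real.log (u (n - 1)) / n + Real.log (Real.log 2) / n)
      atTop (𝓝 lam) := by
    have := (tendsto_pred u lam h).add (tendsto_const_div (Real.log (Real.log 2)))
    simpa using this
  have hup : Tendsto (fun n : ℕ => Real.log (Real.log q + Real.log 2) / n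
      + Real.log (∑ k ∈ Finset.range n, u k) / n) atTop (𝓝 lam) := by
    have := (tendsto_const_div (Real.log (Real.log q + Real.log 2))).add
      (log_sum_div u hu lam hlam h)
    simpa using this
  refine tendsto_of_tendsto_of_tendsto_of_le_of_le' hlow hup ?_ ?_
  · filter_upwards [eventually_gt_atTop 0] with n hn
    have hn1 : (0 : ℝ) < n := by positivity
    rw [← add_div]
    have h3 : 0 < u (n - 1) := zero_lt_one.trans_le (hu _)
    rw [← Real.log_mul h3.ne' hl2.ne']
    gcongr
    exact h1 n hn
  · filter_upwards [eventually_gt_atTop 0] with n hn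
    have hn1 : (0 : ℝ) < n := by positivity
    rw [← add_div]
    have h3 : 0 < u (n - 1) := zero_lt_one.trans_le (hu _)
    have h4 : 1 ≤ ∑ k ∈ Finset.range n, u k := (hu _).trans
      (Finset.single_le_sum (f := u) (fun k _ => (zero_le_one.trans (hu k)))
      (Finset.mem_range.2 (show n - 1 < n by omega)))
    have h5 : 0 < Real.log (c n) := (mul_pos h3 hl2).trans_le (h1 n hn)
    rw [← Real.log_mul (by positivity) (by positivity)]
    gcongr
    refine (h2 n hn).trans ?_
    nlinarith

end asymptotics

/-! ### The spectral radius -/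

section spectral

variable {ι : Type} [Fintype ι] [DecidableEq ι] (A : Matrix ι ι ℕ)

/-- maximal row sum of `A ^ k` -/
def R (k : ℕ) : ℕ := Finset.univ.sup fun i => ∑ j, (A ^ k) i j

lemma one_le_R (hne : (MatrixShift A).Nonempty) (k : ℕ) : 1 ≤ R A k := by
  obtain ⟨x, hx⟩ := hne
  have h1 : ∀ k : ℕ, 1 ≤ (A ^ k) (x 0) (x k) := by
    intro k
    induction k with
    | zero => simp
    | succ k ih =>
      rw [pow_succ, Matrix.mul_apply]
      have h2 : A (x (k : ℤ)) (x ((k + 1 : ℕ) : ℤ)) = 1 := by
        have := hx (k : ℤ)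
        push_cast
        exact this
      calc 1 ≤ (A ^ k) (x 0) (x k) * A (x k) (x ((k + 1 : ℕ) : ℤ)) := by
            rw [h2, mul_one]; exact ih
        _ ≤ _ := Finset.single_le_sum
            (f := fun j => (A ^ k) (x 0) j * A j (x ((k + 1 : ℕ) : ℤ)))
            (fun _ _ => Nat.zero_le _) (Finset.mem_univ (x k))
  calc 1 ≤ (A ^ k) (x 0) (x k) := h1 k
    _ ≤ ∑ j, (A ^ k) (x 0) j :=
      Finset.single_le_sum (f := fun j => (A ^ k) (x 0) j) (fun _ _ => Nat.zero_le _)
        (Finset.mem_univ _)
    _ ≤ R A k := Finset.le_sup (f := fun i => ∑ j, (A ^ k) i j) (Finset.mem_univ _)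

attribute [local instance] Matrix.linftyOpNormedRing Matrix.linftyOpNormedAlgebra

lemma norm_pow_eq (k : ℕ) : ‖(A.map (fun k : ℕ => (k : ℂ))) ^ k‖ = (R A k : ℝ) := by
  have h1 : (A.map (fun k : ℕ => (k : ℂ))) ^ k = (A ^ k).map (fun k : ℕ => (k : ℂ)) := by
    have := map_pow (Nat.castRingHom ℂ).mapMatrix A k
    exact this.symm
  rw [h1, Matrix.linfty_opNorm_def]
  unfold R
  have h2 : (Finset.univ.sup fun i => ∑ j, ‖((A ^ k).map (fun k : ℕ => (k : ℂ))) i j‖₊)
      = ((Finset.univ.sup fun i => ∑ j, (A ^ k) i j : ℕ) : NNReal) := by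
    rw [Finset.apply_sup_eq_sup_comp (fun n : ℕ => (n : NNReal)) (fun a b => by
      simp) (by simp)]
    refine Finset.sup_congr rfl fun i _ => ?_
    simp
  rw [h2]
  rfl

lemma tendsto_rho : Tendsto (fun n : ℕ => ((R A n : ℝ)) ^ (1 / n : ℝ)) atTop (𝓝 (rho A)) := by
  have : CompleteSpace (Matrix ι ι ℂ) := FiniteDimensional.complete ℂ _
  have h := spectrum.pow_norm_pow_one_div_tendsto_nhds_spectralRadius
    (A.map (fun k : ℕ => (k : ℂ)))
  have htop : spectralRadius ℂ (A.map (fun k : ℕ => (k : ℂ))) ≠ ⊤ := by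
    refine ne_top_of_le_ne_top ?_ (spectrum.spectralRadius_le_pow_nnnorm_pow_one_div ℂ
      (A.map (fun k : ℕ => (k : ℂ))) 0)
    simp [ENNReal.mul_eq_top]
  have h2 := (ENNReal.tendsto_toReal htop).comp h
  refine h2.congr fun n => ?_
  simp only [Function.comp]
  rw [ENNReal.toReal_ofReal (by positivity), norm_pow_eq]

lemma one_le_rho (hne : (MatrixShift A).Nonempty) : 1 ≤ rho A := by
  refine ge_of_tendsto' (tendsto_rho A) fun n => ?_
  exact Real.one_le_rpow (by exact_mod_cast one_le_R A hne n) (by positivity)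

lemma tendsto_log_rho (hne : (MatrixShift A).Nonempty) :
    Tendsto (fun n : ℕ => Real.log (R A n) / n) atTop (𝓝 (Real.log (rho A))) := by
  have h := (Real.continuousAt_log (zero_lt_one.trans_le (one_le_rho A hne)).ne').tendsto.comp
    (tendsto_rho A)
  refine h.congr fun n => ?_
  have h1 : (0 : ℝ) < R A n := by exact_mod_cast one_le_R A hne n
  simp only [Function.comp]
  rw [Real.log_rpow h1]
  ring

end spectral

/-- **Main theorem.** For every square `0`-`1` matrix `A` whose matrix shift is nonempty there is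
a tree-shift of finite type whose entropy exists and equals `ln ρ(A)`. -/
theorem result (ι : Type) [Fintype ι] [DecidableEq ι] (A : Matrix ι ι ℕ)
    (hA : ∀ i j, A i j = 0 ∨ A i j = 1) (hne : (MatrixShift A).Nonempty) :
    ∃ (d : ℕ) (𝒜 : Type) (_ : Fintype 𝒜) (F : Set (Σ n : ℕ, NBlock d 𝒜 n)),
      2 ≤ d ∧ F.Finite ∧ (∀ b ∈ F, 1 ≤ b.1) ∧ (TreeShift F).Nonempty ∧
      HasEntropy (TreeShift F) (Real.log (rho A)) := by
  refine ⟨dd ι, Alph ι, inferInstance, FF A, ?_, FF_finite A, ?_, ⟨ext A none, ext_mem A none⟩, ?_⟩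
  · simp [dd]
  · rintro b ⟨b', _, rfl⟩
    simp
  · have hfin : ∀ n, (Blocks (TreeShift (FF A)) n).Finite := fun n => by
      have : Finite (NBlock (dd ι) (Alph ι) n) := by
        unfold NBlock
        infer_instance
      exact Set.toFinite _
    have hLe : ∀ n s, L A n s ≤ ∑ k ∈ Finset.range n, R A k := by
      intro n s
      rw [L_eq]
      refine Finset.sum_le_sum fun k _ => ?_
      cases s with
      | none => rw [M_none]; exact Nat.zero_le _
      | some i =>
        rw [M_some A hA]
        exact Finset.le_sup (f := fun i => ∑ j, (A ^ k) i j) (Finset.mem_univ _)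
    have hι : Nonempty ι := by
      obtain ⟨x, _⟩ := hne
      exact ⟨x 0⟩
    have hGe : ∀ n, 0 < n → ∃ i, R A (n - 1) ≤ L A n (some i) := by
      intro n hn
      obtain ⟨i, _, hi⟩ := Finset.exists_mem_eq_sup (Finset.univ : Finset ι)
        Finset.univ_nonempty (fun i => ∑ j, (A ^ (n - 1)) i j)
      refine ⟨i, ?_⟩
      rw [L_eq]
      unfold R
      rw [hi]
      rw [← M_some A hA]
      exact Finset.single_le_sum (f := fun k => M A k (some i)) (fun _ _ => Nat.zero_le _)
        (Finset.mem_range.2 (by omega))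
    refine loglog (fun n => (R A n : ℝ)) (fun k => by exact_mod_cast one_le_R A hne k)
      (Real.log (rho A)) (Real.log_nonneg (one_le_rho A hne)) (tendsto_log_rho A hne)
      (fun n => ((Blocks (TreeShift (FF A)) n).ncard : ℝ)) (Fintype.card (Option ι)) ?_ ?_ ?_
    · have : 0 < Fintype.card (Option ι) := Fintype.card_pos
      exact_mod_cast this
    · intro n hn
      obtain ⟨i, hi⟩ := hGe n hn
      have h1 : 2 ^ R A (n - 1) ≤ (Blocks (TreeShift (FF A)) n).ncard := by
        calc 2 ^ R A (n - 1) ≤ 2 ^ L A n (some i) := Nat.pow_le_pow_right (by norm_num) hi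
          _ = (G A n (some i)).ncard := (card_G A n (some i)).symm
          _ ≤ _ := Set.ncard_le_ncard (by rw [blocks_eq]; exact Set.subset_iUnion _ _) (hfin n)
      have h2 : ((2 : ℝ) ^ R A (n - 1)) ≤ ((Blocks (TreeShift (FF A)) n).ncard : ℝ) := by
        exact_mod_cast h1
      calc (R A (n - 1) : ℝ) * Real.log 2 = Real.log (2 ^ R A (n - 1)) := by
            rw [Real.log_pow]
        _ ≤ _ := Real.log_le_log (by positivity) h2
    · intro n hn
      have h1 : (Blocks (TreeShift (FF A)) n).ncard
          ≤ Fintype.card (Option ι) * 2 ^ (∑ k ∈ Finset.range n, R A k) := by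
        rw [blocks_eq]
        calc (⋃ s, G A n s).ncard ≤ ∑ s, (G A n s).ncard := Set.ncard_iUnion_le_of_fintype _
          _ ≤ ∑ _s : Option ι, 2 ^ (∑ k ∈ Finset.range n, R A k) := by
            refine Finset.sum_le_sum fun s _ => ?_
            rw [card_G]
            exact Nat.pow_le_pow_right (by norm_num) (hLe n s)
          _ = _ := by
            rw [Finset.sum_const, Finset.card_univ, smul_eq_mul]
      have hpos : 0 < (Blocks (TreeShift (FF A)) n).ncard := by
        obtain ⟨i, hi⟩ := hGe n hn
        calc 0 < 2 ^ L A n (some i) := by positivity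
          _ = (G A n (some i)).ncard := (card_G A n (some i)).symm
          _ ≤ _ := Set.ncard_le_ncard (by rw [blocks_eq]; exact Set.subset_iUnion _ _) (hfin n)
      have h2 : ((Blocks (TreeShift (FF A)) n).ncard : ℝ)
          ≤ (Fintype.card (Option ι) : ℝ) * 2 ^ (∑ k ∈ Finset.range n, R A k) := by
        exact_mod_cast h1
      have hq : (0 : ℝ) < (Fintype.card (Option ι) : ℝ) := by
        have : 0 < Fintype.card (Option ι) := Fintype.card_pos
        exact_mod_cast this
      refine (Real.log_le_log (by exact_mod_cast hpos) h2).trans ?_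
      rw [Real.log_mul hq.ne' (by positivity), Real.log_pow]
      push_cast
      exact le_rfl

end Pool.Agent.Results.MP_29bdbb_an.MatrixShiftEntropies
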